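import Pool.Agent.Helper63.ST.Defs

set_option autoImplicit false

namespace Pool.Agent.ST

open Module

theorem st10_card_le {B : Type} [AddCommGroup B] {r : ℕ} (hr : RankLE B r) {n : ℕ}
    (v : Fin n → B) (hv : LinearIndependent ℤ v) : n ≤ r := by
  classical
  obtain ⟨t, ht, hts⟩ := hr (Finset.univ.image v)
  have ht' : Submodule.span ℤ (t : Set B) = Submodule.span ℤ (Set.range v) := by
    apply_fun (fun H => H.toIntSubmodule) at hts
    rw [AddSubgroup.toIntSubmodule_closure, AddSubgroup.toIntSubmodule_closure] at hts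
    simpa using hts
  set N := Submodule.span ℤ (Set.range v) with hN
  have hmem : ∀ x ∈ t, x ∈ N := fun x hx => by
    rw [← ht']
    exact Submodule.subset_span hx
  have hi := linearIndependent_span hv
  let w : Finset N := t.attach.image fun x => ⟨x.1, hmem x.1 x.2⟩
  have hw : Submodule.span ℤ (w : Set N) = ⊤ := by
    have e : ((w : Set N)) = (fun x : N => (x : B)) ⁻¹' (t : Set B) := by
      ext x
      simp only [w, Finset.coe_image, Set.mem_image, Finset.mem_coe, Finset.mem_attach, true_and,
        Set.mem_preimage]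
      constructor
      · rintro ⟨y, rfl⟩
        exact y.2
      · intro hx
        exact ⟨⟨x.1, hx⟩, rfl⟩
    rw [e]
    refine Submodule.map_injective_of_injective (f := N.subtype) N.injective_subtype ?_
    rw [Submodule.map_span, Submodule.map_top, Submodule.range_subtype]
    have e2 : (N.subtype '' ((fun x : N => (x : B)) ⁻¹' (t : Set B))) = (t : Set B) := by
      ext x
      constructor
      · rintro ⟨y, hy, rfl⟩
        exact hy
      · intro hx
        exact ⟨⟨x, hmem x hx⟩, hx, rfl⟩
    rw [e2, ht']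
  have h := linearIndependent_le_span_finset _ hi w hw
  have h2 : w.card ≤ t.card := by
    refine Finset.card_image_le.trans ?_
    simp
  have h4 : n ≤ w.card := by simpa using h
  omega

theorem st10_exists {B : Type} [AddCommGroup B] {r : ℕ} (hr : RankLE B r) :
    ∃ t : Finset B, ∀ b : B, ∃ n : ℕ, 0 < n ∧ n • b ∈ AddSubgroup.closure (t : Set B) := by
  classical
  let P : ℕ → Prop := fun n => ∃ v : Fin n → B, LinearIndependent ℤ v
  have hP0 : P 0 := ⟨Fin.elim0, linearIndependent_empty_type⟩
  obtain ⟨v, hv⟩ : P (Nat.findGreatest P r) := Nat.findGreatest_spec (Nat.zero_le r) hP0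
  refine ⟨Finset.univ.image v, fun b => ?_⟩
  have hnot : ¬ LinearIndependent ℤ (Fin.cons b v : Fin (Nat.findGreatest P r + 1) → B) := by
    intro h
    have h1 := st10_card_le hr _ h
    have h2 : Nat.findGreatest P r + 1 ≤ Nat.findGreatest P r := Nat.le_findGreatest h1 ⟨_, h⟩
    omega
  rw [Fintype.not_linearIndependent_iff] at hnot
  obtain ⟨g, hg, i, hi⟩ := hnot
  rw [Fin.sum_univ_succ] at hg
  simp only [Fin.cons_zero, Fin.cons_succ] at hg
  have hmem : ∑ i, g (Fin.succ i) • v i ∈ AddSubgroup.closure ((Finset.univ.image v : Finset B) : Set B) := by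
    refine sum_mem fun i _ => zsmul_mem (AddSubgroup.subset_closure ?_) _
    simp
  have hg0 : g 0 ≠ 0 := by
    intro h0
    rw [h0, zero_smul, zero_add] at hg
    rw [Fintype.linearIndependent_iff] at hv
    have h5 := hv _ hg
    rcases Fin.eq_zero_or_eq_succ i with rfl | ⟨j, rfl⟩
    · exact hi h0
    · exact hi (h5 j)
  have h6 : g 0 • b ∈ AddSubgroup.closure ((Finset.univ.image v : Finset B) : Set B) := by
    rw [eq_neg_of_add_eq_zero_left hg]
    exact neg_mem hmem
  refine ⟨(g 0).natAbs, Int.natAbs_pos.2 hg0, ?_⟩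
  rcases Int.natAbs_eq (g 0) with h | h
  · rw [h, natCast_zsmul] at h6
    exact h6
  · rw [h, neg_smul, natCast_zsmul] at h6
    exact (neg_mem_iff).1 h6

/-- ST-10 -/
theorem pmin_of_genBy {G B : Type} [Group G] [Group.FG G] [AddCommGroup B]
    (ρ : G →* AddMonoid.End B) (s : Finset B) (hs : GenBy ρ s) {r : ℕ} (hr : RankLE B r) :
    ∃ m : ℕ, 0 < m ∧ PMin m B := by
  classical
  obtain ⟨t, ht⟩ := st10_exists hr
  choose n hn0 hn using ht
  obtain ⟨S, hS⟩ := (Monoid.fg_def (M := G)).1 inferInstance
  let F : Finset B := s ∪ (S ×ˢ t).image fun x => ρ x.1 x.2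
  have hF : ∀ b ∈ F, (∏ b ∈ F, n b) • b ∈ AddSubgroup.closure (t : Set B) := by
    intro b hb
    obtain ⟨k, hk⟩ := Finset.dvd_prod_of_mem n hb
    rw [hk, mul_comm, mul_smul]
    exact nsmul_mem (hn b) k
  set m := ∏ b ∈ F, n b with hm
  refine ⟨m, Finset.prod_pos fun b _ => hn0 b, t, ?_⟩
  let C : AddSubgroup B :=
    { carrier := {b | ∃ j : ℕ, m ^ j • b ∈ AddSubgroup.closure (t : Set B)}
      zero_mem' := ⟨0, by simp⟩
      add_mem' := by
        rintro a b ⟨i, hi⟩ ⟨j, hj⟩
        refine ⟨i + j, ?_⟩
        rw [smul_add]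
        refine add_mem ?_ ?_
        · rw [pow_add, mul_comm, mul_smul]
          exact nsmul_mem hi _
        · rw [pow_add, mul_smul]
          exact nsmul_mem hj _
      neg_mem' := by
        rintro a ⟨i, hi⟩
        refine ⟨i, ?_⟩
        rw [smul_neg]
        exact neg_mem hi }
  have hCS : ∀ q ∈ S, ∀ b ∈ C, ρ q b ∈ C := by
    rintro q hq b ⟨j, hj⟩
    refine ⟨j + 1, ?_⟩
    have h1 : ∀ x ∈ AddSubgroup.closure (t : Set B), m • ρ q x ∈ AddSubgroup.closure (t : Set B) := by
      intro x hx
      induction hx using AddSubgroup.closure_induction with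
      | mem x hx =>
        apply hF
        refine Finset.mem_union_right _ (Finset.mem_image.2 ⟨(q, x), ?_, rfl⟩)
        exact Finset.mem_product.2 ⟨hq, hx⟩
      | zero => simp
      | add x y _ _ hx hy => rw [map_add, smul_add]; exact add_mem hx hy
      | neg x _ hx => rw [map_neg, smul_neg]; exact neg_mem hx
    have h2 := h1 _ hj
    rw [map_nsmul, smul_smul, ← pow_succ'] at h2
    exact h2
  have hCG : ∀ g, ∀ b ∈ C, ρ g b ∈ C := by
    intro g
    have hg : g ∈ Submonoid.closure (S : Set G) := by rw [hS]; trivial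
    induction hg using Submonoid.closure_induction with
    | mem q hq => exact hCS q hq
    | one => intro b hb; rw [map_one]; exact hb
    | mul x y _ _ hx hy => intro b hb; rw [map_mul]; exact hx _ (hy _ hb)
  have hC : C = ⊤ := hs C (fun b hb => ⟨1, by rw [pow_one]; exact hF b (Finset.mem_union_left _ hb)⟩) hCG
  intro b
  have : b ∈ C := by rw [hC]; trivial
  exact this

end Pool.Agent.ST
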