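import Pool.Agent.Helper63.ST.Defs

set_option autoImplicit false

namespace Pool.Agent.ST

open Module

/-- the action on the dual -/
noncomputable def dualAct {G B : Type} [Group G] [AddCommGroup B] (ρ : G →* AddMonoid.End B)
    (p : ℕ) [Fact p.Prime] : G →* Module.End ℤ_[p] (B →+ QpZp p) where
  toFun g :=
    { toFun := fun f => f.comp (ρ g⁻¹)
      map_add' := fun f f' => rfl
      map_smul' := fun c f => rfl }
  map_one' := by
    refine LinearMap.ext fun f => AddMonoidHom.ext fun b => ?_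
    change f (ρ (1 : G)⁻¹ b) = f b
    simp
  map_mul' g h := by
    refine LinearMap.ext fun f => AddMonoidHom.ext fun b => ?_
    change f (ρ (g * h)⁻¹ b) = f (ρ h⁻¹ (ρ g⁻¹ b))
    rw [mul_inv_rev, map_mul]
    rfl

theorem dualAct_apply {G B : Type} [Group G] [AddCommGroup B] (ρ : G →* AddMonoid.End B) (p : ℕ)
    [Fact p.Prime] (g : G) (f : B →+ QpZp p) (b : B) : dualAct ρ p g f b = f (ρ g⁻¹ b) := rfl

theorem dualAct_prod {G B : Type} [Group G] [AddCommGroup B] (ρ : G →* AddMonoid.End B) (p : ℕ)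
    [Fact p.Prime] (l : List G) (f : B →+ QpZp p) (b : B) :
    (((l.map (fun h => h⁻¹)).reverse.map fun h => dualAct ρ p h - 1).prod f) b
      = f (opProd ρ l b) := by
  induction l generalizing f with
  | nil => simp [opProd]
  | cons h t ih =>
    have e : ((dualAct ρ p h⁻¹ - 1 : Module.End ℤ_[p] (B →+ QpZp p)) f)
        = f.comp (ρ h - 1 : AddMonoid.End B) := by
      refine AddMonoidHom.ext fun x => ?_
      change f (ρ (h⁻¹)⁻¹ x) - f x = f (ρ h x - x)
      rw [inv_inv, map_sub]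
    rw [List.map_cons, List.reverse_cons, List.map_append, List.prod_append, List.map_singleton,
      List.prod_singleton, Module.End.mul_apply, e, ih]
    rfl

/-- the dual is torsion-free -/
theorem dual_smul_eq_zero {B : Type} [AddCommGroup B] (p : ℕ) [Fact p.Prime]
    (h2 : ∀ b : B, ∃ c, p • c = b) (c : ℤ_[p]) (hc : c ≠ 0) (f : B →+ QpZp p)
    (hf : c • f = 0) : f = 0 := by
  have h3 : ∀ (n : ℕ) (b : B), ∃ c, p ^ n • c = b := by
    intro n
    induction n with
    | zero => intro b; exact ⟨b, by simp⟩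
    | succ n ih =>
      intro b
      obtain ⟨c, hc⟩ := ih b
      obtain ⟨d, hd⟩ := h2 c
      exact ⟨d, by rw [pow_succ, mul_smul, hd, hc]⟩
  have h4 : (p ^ c.valuation) • f = 0 := by
    have hu := PadicInt.unitCoeff_spec hc
    have h6 : (((PadicInt.unitCoeff hc)⁻¹ : ℤ_[p]ˣ) : ℤ_[p]) * c = (p : ℤ_[p]) ^ c.valuation := by
      generalize hw : PadicInt.unitCoeff hc = w at hu
      rw [show ((w⁻¹ : ℤ_[p]ˣ) : ℤ_[p]) * c
        = ((w⁻¹ : ℤ_[p]ˣ) : ℤ_[p]) * ((w : ℤ_[p]) * (p : ℤ_[p]) ^ c.valuation) from by rw [← hu],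
        ← mul_assoc]
      simp
    rw [← Nat.cast_smul_eq_nsmul ℤ_[p]]
    push_cast
    rw [← h6, mul_smul, hf, smul_zero]
  refine AddMonoidHom.ext fun b => ?_
  obtain ⟨d, rfl⟩ := h3 c.valuation b
  rw [map_nsmul, ← AddMonoidHom.nsmul_apply, h4]
  rfl

/-- Malcev's theorem for lattices -/
theorem malcev_lattice {f : ℕ → ℕ} (hf : MalcevBound f) {R K D : Type} [CommRing R] [IsDomain R]
    [Field K] [Algebra R K] [IsFractionRing R K] [AddCommGroup D] [Module R D]
    (hD : ∀ c : R, c ≠ 0 → ∀ d : D, c • d = 0 → d = 0) {r : ℕ} (u : Fin r → D)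
    (hu : Submodule.span R (Set.range u) = ⊤) {G : Type} [Group G] [Group.IsSolvable G]
    (σ : G →* Module.End R D) :
    ∃ H : Subgroup G, H.index ≠ 0 ∧ H.index ≤ f r ∧
      ∀ l : List G, l.length = r → (∀ h ∈ l, h ∈ ⁅H, H⁆) → (l.map fun h => σ h - 1).prod = 0 := by
  have hspan : Submodule.span K (Set.range fun i => (1 : K) ⊗ₜ[R] u i) = ⊤ := by
    have := Submodule.baseChange_span (R := R) K (Set.range u)
    rw [hu, Submodule.baseChange_top] at this
    rw [this]
    congr 1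
    ext x
    simp
  have : Module.Finite R D := ⟨⟨Set.Finite.toFinset (Set.finite_range u), by simpa using hu⟩⟩
  have hrank : finrank K (TensorProduct R K D) ≤ r := by
    have := finrank_le_of_span_eq_top hspan
    simpa using this
  obtain ⟨H, hH0, hH1, hH2⟩ := hf r K (TensorProduct R K D) G
    (((Module.End.baseChangeHom R K D : _ →* _)).comp σ) hrank
  refine ⟨H, hH0, hH1, fun l hl hl' => ?_⟩
  have h := hH2 l hl hl'
  have e : (l.map fun h => (((Module.End.baseChangeHom R K D : _ →* _)).comp σ) h - 1).prod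
      = Module.End.baseChangeHom R K D (l.map fun h => σ h - 1).prod := by
    rw [map_list_prod, List.map_map]
    congr 1
    refine List.map_congr_left fun h _ => ?_
    simp
  rw [e] at h
  refine LinearMap.ext fun d => ?_
  have h5 : (1 : K) ⊗ₜ[R] ((l.map fun h => σ h - 1).prod d) = 0 := by
    exact LinearMap.congr_fun h ((1 : K) ⊗ₜ[R] d)
  have h6 : (TensorProduct.mk R K D 1) ((l.map fun h => σ h - 1).prod d) = 0 := h5
  rw [IsLocalizedModule.eq_zero_iff (nonZeroDivisors R)] at h6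
  obtain ⟨c, hc⟩ := h6
  exact hD c (nonZeroDivisors.ne_zero c.2) _ hc

/-- ST-6c, from the two facts on the dual -/
theorem unip_divisible_of {f : ℕ → ℕ} (hf : MalcevBound f) {B : Type} [AddCommGroup B] {r : ℕ}
    (p : ℕ) [Fact p.Prime] (h2 : ∀ b : B, ∃ c, p • c = b)
    (h6a : ∃ u : Fin r → (B →+ QpZp p), Submodule.span ℤ_[p] (Set.range u) = ⊤)
    (h6b : ∀ {b : B}, b ≠ 0 → ∃ f : B →+ QpZp p, f b ≠ 0) : UnipBound f B r := by
  intro G _ _ ρ
  obtain ⟨u, hu⟩ := h6a
  obtain ⟨H, hH0, hH1, hH2⟩ := malcev_lattice hf (K := ℚ_[p])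
    (dual_smul_eq_zero p h2) u hu (dualAct ρ p)
  refine ⟨H, hH0, hH1, fun l hl hl' => ?_⟩
  refine AddMonoidHom.ext fun b => ?_
  by_contra hb
  obtain ⟨g, hg⟩ := h6b hb
  apply hg
  have key := dualAct_prod ρ p l g b
  rw [hH2] at key
  · exact key.symm
  · simpa using hl
  · intro h hh
    rw [List.mem_reverse, List.mem_map] at hh
    obtain ⟨h', hh', rfl⟩ := hh
    exact inv_mem (hl' h' hh')

end Pool.Agent.ST
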