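import Pool.Agent.Helper63.ST.Defs
import Pool.Agent.Helper62.ST.ST6cAux
import Pool.Agent.Helper66.ST.ST6a
import Pool.Agent.Helper31.ST.ST6b

set_option autoImplicit false

namespace Pool.Agent.ST

open Module

/-- ST-6c -/
theorem unip_divisible {f : ℕ → ℕ} (hf : MalcevBound f) {B : Type} [AddCommGroup B] {r : ℕ}
    (hr : RankLE B r) {p : ℕ} (hp : p.Prime) (h1 : ∀ b : B, ∃ k : ℕ, p ^ k • b = 0)
    (h2 : ∀ b : B, ∃ c, p • c = b) : UnipBound f B r := by
  have : Fact p.Prime := ⟨hp⟩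
  exact unip_divisible_of hf p h2 (dual_fg hr p h1 h2) (fun {b} hb => dual_separates p h1 hb)

end Pool.Agent.ST
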